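import Pool.Agent.SV48.Main

/-!
# Secant varieties of subspace varieties are asymptotically non-defective

The tensor space `V_1 ⊗ … ⊗ V_n` with `dim V_i = m i` is the space of arrays
`(∀ i, Fin (m i)) → ℂ` of coordinates, `X = Sub_r`.

THEOREM.  Let `ρ i = min (r i) (∏_{j ≠ i} r j)` (so `Sub_r = Sub_ρ`) and let
`D = ∏ ρ i + ∑ ρ i (m i - ρ i)` be the dimension of the cone over `X`.  Suppose that every mode is
either large, `m i ≥ (20 n / ε)² ρ i`, or full, `m i = ρ i`, and that at least three modes are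
large.  Then `min ((1-ε) s D) (∏ m) ≤ dim (cone over σ_s(X)) ≤ min (s D) (∏ m)` for all `s`, and
the generic `X`-rank `k` satisfies `∏ m ≤ k D ≤ (1+ε) ∏ m`.
-/

namespace Pool.Agent.Results.MP_5a01d7_ag.AsymptoticRank

open Finset

/-- The decomposable tensor `v_1 ⊗ … ⊗ v_n`, as the array of its coordinates. -/
def decomposable {n : ℕ} {m : Fin n → ℕ} (v : ∀ i, Fin (m i) → ℂ) : (∀ i, Fin (m i)) → ℂ :=
  fun x => ∏ i, v i (x i)

/-- The affine cone over `Sub_r`: the tensors that lie in `A_1 ⊗ … ⊗ A_n` for some subspaces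
`A_i` of `V_i` with `dim A_i = r i`. -/
def SubspaceCone {n : ℕ} (m r : Fin n → ℕ) : Set ((∀ i, Fin (m i)) → ℂ) :=
  {T | ∃ A : ∀ i, Submodule ℂ (Fin (m i) → ℂ), (∀ i, Module.finrank ℂ (A i) = r i) ∧
    T ∈ Submodule.span ℂ {S | ∃ v : ∀ i, Fin (m i) → ℂ, (∀ i, v i ∈ A i) ∧ S = decomposable v}}

/-- The tensors which are sums of `s` elements of the cone over `X = Sub_r`. -/
def SumsOf {n : ℕ} (m r : Fin n → ℕ) (s : ℕ) : Set ((∀ i, Fin (m i)) → ℂ) :=
  {T | ∃ S : Fin s → ((∀ i, Fin (m i)) → ℂ), (∀ j, S j ∈ SubspaceCone m r) ∧ T = ∑ j, S j}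

/-- `σ_s(X)` is the whole space: a polynomial in the coordinates that vanishes on every sum of
`s` elements of the cone over `X = Sub_r` is zero. -/
def SecantFills {n : ℕ} (m r : Fin n → ℕ) (s : ℕ) : Prop :=
  ∀ F : MvPolynomial (∀ i, Fin (m i)) ℂ,
    (∀ T ∈ SumsOf m r s, MvPolynomial.eval T F = 0) → F = 0

/-- `k` is the generic `X`-rank, the least `s` with `σ_s(X)` the whole space. -/
def IsGenericRank {n : ℕ} (m r : Fin n → ℕ) (k : ℕ) : Prop :=
  IsLeast {s | SecantFills m r s} k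

/-- The dimension of the affine cone over `σ_s(X)`: the largest number of coordinates that are
algebraically independent on it, i.e. such that no nonzero polynomial in these coordinates
vanishes on every sum of `s` elements of the cone over `X`. -/
noncomputable def secantDim {n : ℕ} (m r : Fin n → ℕ) (s : ℕ) : ℕ :=
  sSup {d | ∃ Y : Finset (∀ i, Fin (m i)), Y.card = d ∧
    ∀ F : MvPolynomial (∀ i, Fin (m i)) ℂ, F.vars ⊆ Y →
      (∀ T ∈ SumsOf m r s, MvPolynomial.eval T F = 0) → F = 0}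

/-- The reduced ranks: a tensor of `A_1 ⊗ … ⊗ A_n` with `dim A_i = r i` has multilinear rank at
most `min (r i) (∏_{j ≠ i} r j)` in the mode `i`, so `Sub_r = Sub_{reduced r}`. -/
def reduced {n : ℕ} (r : Fin n → ℕ) (i : Fin n) : ℕ := min (r i) (∏ j ∈ univ.erase i, r j)

/-- The dimension of the affine cone over `Sub_r`. -/
def dimCone {n : ℕ} (m r : Fin n → ℕ) : ℕ :=
  ∏ i, reduced r i + ∑ i, reduced r i * (m i - reduced r i)

/-- Main theorem.  `L` is the set of the large modes. -/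
theorem result {n : ℕ} (m r : Fin n → ℕ) (ε : ℝ) (hε : 0 < ε) (hε1 : ε ≤ 1)
    (hr : ∀ i, 1 ≤ r i) (hrm : ∀ i, r i ≤ m i) (L : Finset (Fin n)) (hL : 3 ≤ L.card)
    (hlarge : ∀ i ∈ L, (20 * (n : ℝ) / ε) ^ 2 * reduced r i ≤ m i)
    (hfull : ∀ i, i ∉ L → reduced r i = m i) :
    (∀ s : ℕ, min ((1 - ε) * ((s : ℝ) * dimCone m r)) (∏ i, (m i : ℝ)) ≤ secantDim m r s ∧
      (secantDim m r s : ℝ) ≤ min ((s : ℝ) * dimCone m r) (∏ i, (m i : ℝ))) ∧
    ∃ k, IsGenericRank m r k ∧ (∏ i, (m i : ℝ)) ≤ k * dimCone m r ∧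
      (k : ℝ) * dimCone m r ≤ (1 + ε) * ∏ i, (m i : ℝ) := by
  obtain ⟨h1, h2⟩ := SV48.main hε hε1 hr hrm L hL hlarge hfull
  exact ⟨fun s => ⟨(h2 s).2, (h2 s).1⟩, h1⟩

end Pool.Agent.Results.MP_5a01d7_ag.AsymptoticRank
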