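import Pool.Agent.H63.SubV.CorankOne

/-!
Generic rank with respect to the subspace variety with `r_i = m_i - 1` for every `i`.

The tensor space `V_1 ⊗ … ⊗ V_n` with `dim V_i = m i` is the space of arrays
`(∀ i, Fin (m i)) → ℂ` of coordinates.
-/

namespace Pool.Agent.Results.MP_5a01d7_ag.CorankOne

open Finset

/-- The decomposable tensor `v_1 ⊗ … ⊗ v_n`, as the array of its coordinates. -/
def decomposable {n : ℕ} {m : Fin n → ℕ} (v : ∀ i, Fin (m i) → ℂ) : (∀ i, Fin (m i)) → ℂ :=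
  fun x => ∏ i, v i (x i)

/-- The affine cone over `Sub_r`: the tensors that lie in `A_1 ⊗ … ⊗ A_n` for some subspaces
`A_i` of `V_i` with `dim A_i = r i`. -/
def SubspaceCone {n : ℕ} (m r : Fin n → ℕ) : Set ((∀ i, Fin (m i)) → ℂ) :=
  {T | ∃ A : ∀ i, Submodule ℂ (Fin (m i) → ℂ), (∀ i, Module.finrank ℂ (A i) = r i) ∧
    T ∈ Submodule.span ℂ {S | ∃ v : ∀ i, Fin (m i) → ℂ, (∀ i, v i ∈ A i) ∧ S = decomposable v}}

/-- The tensors which are sums of `s` elements of the cone over `X = Sub_r`. -/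
def SumsOf {n : ℕ} (m r : Fin n → ℕ) (s : ℕ) : Set ((∀ i, Fin (m i)) → ℂ) :=
  {T | ∃ S : Fin s → ((∀ i, Fin (m i)) → ℂ), (∀ j, S j ∈ SubspaceCone m r) ∧ T = ∑ j, S j}

/-- `σ_s(X)` is the whole space: a polynomial in the coordinates that vanishes on every sum of
`s` elements of the cone over `X = Sub_r` is zero. -/
def SecantFills {n : ℕ} (m r : Fin n → ℕ) (s : ℕ) : Prop :=
  ∀ F : MvPolynomial (∀ i, Fin (m i)) ℂ,
    (∀ T ∈ SumsOf m r s, MvPolynomial.eval T F = 0) → F = 0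

/-- `k` is the generic `X`-rank, the least `s` with `σ_s(X)` the whole space. -/
def IsGenericRank {n : ℕ} (m r : Fin n → ℕ) (k : ℕ) : Prop :=
  IsLeast {s | SecantFills m r s} k

/-- The exact generic rank for `r_i = m_i - 1`, `m_i > n ≥ 3`. -/
theorem result {n : ℕ} (hn : 3 ≤ n) (m : Fin n → ℕ) (hm : ∀ i, n + 1 ≤ m i) :
    IsGenericRank m (fun i => m i - 1)
      (if n = 3 then (if ∀ i, 2 * m i + 2 ≤ ∑ k, m k then 2 else 3)
        else (if (n - 1).factorial ≤ ∑ i, (m i - 1) then n else n + 1)) :=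
  H63.SubV.corank_one hn m hm

end Pool.Agent.Results.MP_5a01d7_ag.CorankOne
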