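import Pool.Agent.H41.Pen.Main

/-!
Generic rank with respect to every subspace variety of `ℂ^p ⊗ ℂ^q ⊗ ℂ^2`.

The tensor space `V_1 ⊗ … ⊗ V_n` with `dim V_i = m i` is the space of arrays
`(∀ i, Fin (m i)) → ℂ` of coordinates.
-/

set_option autoImplicit false

namespace Pool.Agent.Results.MP_5a01d7_ag.Pencils

open Finset

/-- The decomposable tensor `v_1 ⊗ … ⊗ v_n`, as the array of its coordinates. -/
def decomposable {n : ℕ} {m : Fin n → ℕ} (v : ∀ i, Fin (m i) → ℂ) : (∀ i, Fin (m i)) → ℂ :=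
  fun x => ∏ i, v i (x i)

/-- The affine cone over `Sub_r`: the tensors that lie in `A_1 ⊗ … ⊗ A_n` for some subspaces
`A_i` of `V_i` with `dim A_i = r i`. -/
def SubspaceCone {n : ℕ} (m r : Fin n → ℕ) : Set ((∀ i, Fin (m i)) → ℂ) :=
  {T | ∃ A : ∀ i, Submodule ℂ (Fin (m i) → ℂ), (∀ i, Module.finrank ℂ (A i) = r i) ∧
    T ∈ Submodule.span ℂ {S | ∃ v : ∀ i, Fin (m i) → ℂ, (∀ i, v i ∈ A i) ∧ S = decomposable v}}

/-- The tensors which are sums of `s` elements of the cone over `X = Sub_r`. -/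
def SumsOf {n : ℕ} (m r : Fin n → ℕ) (s : ℕ) : Set ((∀ i, Fin (m i)) → ℂ) :=
  {T | ∃ S : Fin s → ((∀ i, Fin (m i)) → ℂ), (∀ j, S j ∈ SubspaceCone m r) ∧ T = ∑ j, S j}

/-- `σ_s(X)` is the whole space: a polynomial in the coordinates that vanishes on every sum of
`s` elements of the cone over `X = Sub_r` is zero. -/
def SecantFills {n : ℕ} (m r : Fin n → ℕ) (s : ℕ) : Prop :=
  ∀ F : MvPolynomial (∀ i, Fin (m i)) ℂ,
    (∀ T ∈ SumsOf m r s, MvPolynomial.eval T F = 0) → F = 0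

/-- `k` is the generic `X`-rank, the least `s` with `σ_s(X)` the whole space. -/
def IsGenericRank {n : ℕ} (m r : Fin n → ℕ) (k : ℕ) : Prop :=
  IsLeast {s | SecantFills m r s} k

/-- The generic ranks for `n = 3`, `m = (p, q, 2)`, `p ≤ q`, and all `r`. -/
theorem result (p q r₁ r₂ : ℕ) (hr₁ : 1 ≤ r₁) (hr₁p : r₁ ≤ p) (hr₂ : 1 ≤ r₂) (hr₂q : r₂ ≤ q)
    (hpq : p ≤ q) :
    IsGenericRank ![p, q, 2] ![r₁, r₂, 1]
      (if p = q then 1 + (p - 1) ⌈/⌉ min r₁ r₂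
        else max (1 + p ⌈/⌉ min r₁ r₂) (min q (2 * p) ⌈/⌉ min r₁ r₂)) ∧
    IsGenericRank ![p, q, 2] ![r₁, r₂, 2]
      (max (p ⌈/⌉ min r₁ (2 * r₂)) (min q (2 * p) ⌈/⌉ min r₂ (2 * r₁))) :=
  H41.Pen.generic hr₁ hr₁p hr₂ hr₂q hpq

end Pool.Agent.Results.MP_5a01d7_ag.Pencils
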