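import Pool.Agent.H63.SubV.General
import Pool.Agent.H63.SubV.Slack

/-!
Generic rank with respect to subspace varieties of small codimension.

The tensor space `V_1 ⊗ … ⊗ V_n` with `dim V_i = m i` is the space of arrays
`(∀ i, Fin (m i)) → ℂ` of coordinates.
-/

namespace Pool.Agent.Results.MP_5a01d7_ag.SmallCodimension

open Finset

/-- The decomposable tensor `v_1 ⊗ … ⊗ v_n`, as the array of its coordinates. -/
def decomposable {n : ℕ} {m : Fin n → ℕ} (v : ∀ i, Fin (m i) → ℂ) : (∀ i, Fin (m i)) → ℂ :=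
  fun x => ∏ i, v i (x i)

/-- The affine cone over `Sub_r`: the tensors that lie in `A_1 ⊗ … ⊗ A_n` for some subspaces
`A_i` of `V_i` with `dim A_i = r i`. -/
def SubspaceCone {n : ℕ} (m r : Fin n → ℕ) : Set ((∀ i, Fin (m i)) → ℂ) :=
  {T | ∃ A : ∀ i, Submodule ℂ (Fin (m i) → ℂ), (∀ i, Module.finrank ℂ (A i) = r i) ∧
    T ∈ Submodule.span ℂ {S | ∃ v : ∀ i, Fin (m i) → ℂ, (∀ i, v i ∈ A i) ∧ S = decomposable v}}

/-- The tensors which are sums of `s` elements of the cone over `X = Sub_r`. -/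
def SumsOf {n : ℕ} (m r : Fin n → ℕ) (s : ℕ) : Set ((∀ i, Fin (m i)) → ℂ) :=
  {T | ∃ S : Fin s → ((∀ i, Fin (m i)) → ℂ), (∀ j, S j ∈ SubspaceCone m r) ∧ T = ∑ j, S j}

/-- `σ_s(X)` is the whole space: a polynomial in the coordinates that vanishes on every sum of
`s` elements of the cone over `X = Sub_r` is zero. -/
def SecantFills {n : ℕ} (m r : Fin n → ℕ) (s : ℕ) : Prop :=
  ∀ F : MvPolynomial (∀ i, Fin (m i)) ℂ,
    (∀ T ∈ SumsOf m r s, MvPolynomial.eval T F = 0) → F = 0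

/-- `k` is the generic `X`-rank, the least `s` with `σ_s(X)` the whole space. -/
def IsGenericRank {n : ℕ} (m r : Fin n → ℕ) (k : ℕ) : Prop :=
  IsLeast {s | SecantFills m r s} k

/-- Main theorem: `X = Sub_r` with `r i = m i - c i` and `m i ≥ n * c i`. -/
theorem result {n : ℕ} (hn : 3 ≤ n) (m c : Fin n → ℕ) (hc : ∀ i, 1 ≤ c i)
    (hm : ∀ i, n * c i ≤ m i) (h3 : n = 3 → ∃ i, c i ≠ 1) :
    (∀ s, SecantFills m (fun i => m i - c i) s → n ≤ s) ∧
    ((∀ i, (n + 1) * c i ≤ m i) →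
      IsGenericRank m (fun i => m i - c i) n ∨ IsGenericRank m (fun i => m i - c i) (n + 1)) ∧
    ((∀ i, (n + 1) * c i ≤ m i) →
      ∑ i, c i * (m i - c i) < (n - 1).factorial * ∏ i, c i →
      IsGenericRank m (fun i => m i - c i) (n + 1)) ∧
    (((n - 1).factorial ≤ ∑ i, (m i - c i) / (∏ k ∈ univ.erase i, c k) ∧
        (n - 1).factorial ≤ 2 * ∑ i, (m i - n * c i) / (∏ k ∈ univ.erase i, c k)) ∨
      (∃ j, (n - 1).factorial ≤ (m j - c j) / (∏ k ∈ univ.erase j, c k) +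
        ∑ i ∈ univ.erase j, (m i - n * c i) / (∏ k ∈ univ.erase i, c k)) →
      IsGenericRank m (fun i => m i - c i) n) ∧
    (6 ≤ n → ((n - 1).factorial + 2 * n) * ∏ i, c i ≤ ∑ i, c i * (m i - c i) →
      IsGenericRank m (fun i => m i - c i) n) := by
  have hlow : ∀ s, SecantFills m (fun i => m i - c i) s → n ≤ s := by
    intro s hs
    by_contra h
    exact H63.SubV.not_fills_lt hn hc hm h3 (not_le.mp h) hs
  have hmain : (((n - 1).factorial ≤ ∑ i, (m i - c i) / (∏ k ∈ univ.erase i, c k) ∧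
        (n - 1).factorial ≤ 2 * ∑ i, (m i - n * c i) / (∏ k ∈ univ.erase i, c k)) ∨
      (∃ j, (n - 1).factorial ≤ (m j - c j) / (∏ k ∈ univ.erase j, c k) +
        ∑ i ∈ univ.erase j, (m i - n * c i) / (∏ k ∈ univ.erase i, c k)) →
      IsGenericRank m (fun i => m i - c i) n) := by
    intro hcond
    refine ⟨?_, hlow⟩
    rcases hcond with ⟨h1, h2⟩ | ⟨j, h⟩
    · exact H63.SubV.fills_n hn hc hm h1 h2
    · exact H63.SubV.fills_n' (by omega) hc hm j h
  refine ⟨hlow, fun hm1 => ?_, fun hm1 hlt => ?_, hmain,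
    fun hn6 h => hmain (H63.SubV.slack hn6 hc hm h)⟩
  · have hsucc : SecantFills m (fun i => m i - c i) (n + 1) := H63.SubV.fills_succ hc hm1
    by_cases hF : SecantFills m (fun i => m i - c i) n
    · exact Or.inl ⟨hF, hlow⟩
    · refine Or.inr ⟨hsucc, fun s hs => ?_⟩
      rcases Nat.eq_or_lt_of_le (hlow s hs) with h | h
      · subst h; exact absurd hs hF
      · exact h
  · refine ⟨H63.SubV.fills_succ hc hm1, fun s hs => ?_⟩
    rcases Nat.eq_or_lt_of_le (hlow s hs) with h | h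
    · subst h
      exact absurd hs (H63.SubV.not_fills_n (by omega) hc hm hlt)
    · exact h

end Pool.Agent.Results.MP_5a01d7_ag.SmallCodimension
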